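import Mathlib

/-!
# MP_98930f_lc : optimal multipoint trajectories which must be faster than `√L`

For the four cities `(0,0), (7,0), (7,7), (0,7)` in the plane (so `L = 7`) every optimal trajectory
has at some step a speed of at least `3 > √7` (even `3 > √8`) in one of the two dimensions: there is
a feasible trajectory of length `12`, but every feasible trajectory with speeds at most `2` has
length at least `13`.
-/

set_option autoImplicit false

namespace Pool.Agent.Results.MP_98930f_lc.SpeedAboveSqrt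

/-- `p` and `v` are the positions and velocities of a trajectory of length `ℓ` (only the values at
the indices `0, …, ℓ` matter). -/
def IsTrajectory {d : ℕ} (ℓ : ℕ) (p v : ℕ → Fin d → ℤ) : Prop :=
  ∀ i < ℓ, v (i + 1) = p (i + 1) - p i ∧ ∀ k, |v (i + 1) k - v i k| ≤ 1

/-- The configuration `(p, v)` visits the point `x`: it lies on the closed line segment in `ℝ^d`
joining `p - v` and `p`. -/
def Visits {d : ℕ} (p v x : Fin d → ℤ) : Prop :=
  (fun k => (x k : ℝ)) ∈ segment ℝ (fun k => ((p k - v k : ℤ) : ℝ)) (fun k => (p k : ℝ))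

/-- Feasible trajectories for the cities `x 0, …, x n`. -/
structure IsFeasible {d n : ℕ} (x : Fin (n + 1) → Fin d → ℤ) (ℓ : ℕ) (p v : ℕ → Fin d → ℤ) :
    Prop where
  traj : IsTrajectory ℓ p v
  start_pos : p 0 = x 0
  start_vel : v 0 = 0
  end_pos : p ℓ = x (Fin.last n)
  end_vel : v ℓ = 0
  visits : ∃ idx : Fin (n + 1) → ℕ, Monotone idx ∧ (∀ j, idx j ≤ ℓ) ∧
    ∀ j, Visits (p (idx j)) (v (idx j)) (x j)

/-- Optimal trajectories: the feasible trajectories of minimum length. -/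
def IsOptimal {d n : ℕ} (x : Fin (n + 1) → Fin d → ℤ) (ℓ : ℕ) (p v : ℕ → Fin d → ℤ) : Prop :=
  IsFeasible x ℓ p v ∧ ∀ ℓ' p' v', IsFeasible x ℓ' p' v' → ℓ ≤ ℓ'

/-- The number `L`: the largest difference of two cities in one of the coordinates. -/
def extent {d n : ℕ} (x : Fin (n + 1) → Fin d → ℤ) : ℕ :=
  Finset.univ.sup fun t : Fin (n + 1) × Fin (n + 1) × Fin d =>
    (x t.1 t.2.2 - x t.2.1 t.2.2).natAbs

/-- The four cities. -/
def cities : Fin 4 → Fin 2 → ℤ := ![![0, 0], ![7, 0], ![7, 7], ![0, 7]]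

theorem extent_cities : extent (n := 3) cities = 7 := by decide

/-! ### A feasible trajectory of length twelve -/

/-- Positions. -/
def pos (i : ℕ) : Fin 2 → ℤ :=
  ([![0, 0], ![1, -1], ![3, -1], ![5, -1], ![7, 0], ![8, 2], ![8, 5], ![7, 7], ![5, 8], ![3, 8],
    ![1, 7], ![0, 7], ![0, 7]] : List (Fin 2 → ℤ)).getD i 0

/-- Velocities. -/
def vel (i : ℕ) : Fin 2 → ℤ :=
  ([![0, 0], ![1, -1], ![2, 0], ![2, 0], ![2, 1], ![1, 2], ![0, 3], ![-1, 2], ![-2, 1], ![-2, 0],
    ![-2, -1], ![-1, 0], ![0, 0]] : List (Fin 2 → ℤ)).getD i 0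

theorem visits_self {d : ℕ} (p v : Fin d → ℤ) : Visits p v p :=
  right_mem_segment ℝ _ _

theorem feasible : IsFeasible (n := 3) cities 12 pos vel where
  traj := by
    have h : ∀ i : Fin 12, vel (i + 1) = pos (i + 1) - pos i ∧
        ∀ k, |vel (i + 1) k - vel i k| ≤ 1 := by decide
    exact fun i hi => h ⟨i, hi⟩
  start_pos := by decide
  start_vel := by decide
  end_pos := by decide
  end_vel := by decide
  visits := by
    refine ⟨![0, 4, 7, 12], by decide, by decide, ?_⟩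
    intro j
    fin_cases j
    · exact visits_self (pos 0) (vel 0)
    · exact visits_self (pos 4) (vel 4)
    · exact visits_self (pos 7) (vel 7)
    · exact visits_self (pos 12) (vel 12)

/-! ### Slow trajectories are longer -/

section Slow

variable {ℓ : ℕ} {X V : ℕ → ℤ}

/-- Upper bound for the position after the start. -/
theorem start_bound (hX : ∀ i < ℓ, V (i + 1) = X (i + 1) - X i) (hV : ∀ i ≤ ℓ, V i ≤ 2)
    (h0 : X 0 = 0) (h1 : 0 < ℓ → V 1 ≤ 1) : ∀ i, 1 ≤ i → i ≤ ℓ → X i ≤ 2 * i - 1 := by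
  intro i hi
  induction i, hi using Nat.le_induction with
  | base =>
    intro hl
    have := hX 0 hl
    have := h1 hl
    push_cast
    simp only [zero_add] at *
    omega
  | succ i hi ih =>
    intro hl
    have h2 := ih (by omega)
    have h3 := hX i (by omega)
    have h4 := hV (i + 1) hl
    push_cast
    omega

/-- Upper bound for the position before the end. -/
theorem end_bound (hX : ∀ i < ℓ, V (i + 1) = X (i + 1) - X i) (hV : ∀ i ≤ ℓ, -2 ≤ V i)
    (h0 : X ℓ = 0) (hl2 : 2 ≤ ℓ) (h1 : V ℓ = 0) (h2 : -1 ≤ V (ℓ - 1)) :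
    ∀ j, 2 ≤ j → j ≤ ℓ → X (ℓ - j) ≤ 2 * j - 3 := by
  intro j hj
  induction j, hj using Nat.le_induction with
  | base =>
    intro _
    have h3 := hX (ℓ - 1) (by omega)
    have h4 := hX (ℓ - 2) (by omega)
    rw [show ℓ - 1 + 1 = ℓ by omega] at h3
    rw [show ℓ - 2 + 1 = ℓ - 1 by omega] at h4
    push_cast
    omega
  | succ j hj ih =>
    intro hl
    have h3 := ih (by omega)
    have h4 := hX (ℓ - (j + 1)) (by omega)
    rw [show ℓ - (j + 1) + 1 = ℓ - j by omega] at h4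
    have h5 := hV (ℓ - j) (by omega)
    push_cast
    omega

/-- Upper bound for the distance. -/
theorem mid_bound (hX : ∀ i < ℓ, V (i + 1) = X (i + 1) - X i) (hV : ∀ i ≤ ℓ, V i ≤ 2) (a : ℕ) :
    ∀ b, a ≤ b → b ≤ ℓ → X b - X a ≤ 2 * (b - a) := by
  intro b hb
  induction b, hb using Nat.le_induction with
  | base =>
    intro _
    omega
  | succ b hb ih =>
    intro hl
    have h2 := ih (by omega)
    have h3 := hX b (by omega)
    have h4 := hV (b + 1) hl
    push_cast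
    omega

end Slow

/-- The parameter of a visit. -/
theorem visits_param {p v x : Fin 2 → ℤ} (h : Visits p v x) :
    ∃ s : ℝ, 0 ≤ s ∧ s ≤ 1 ∧ ∀ k, (x k : ℝ) = (1 - s) * (p k - v k) + s * p k := by
  obtain ⟨a, s, ha, hs, has, hx⟩ := h
  refine ⟨s, hs, by linarith, fun k => ?_⟩
  have h1 := congrFun hx k
  simp only [Pi.add_apply, Pi.smul_apply, smul_eq_mul] at h1
  rw [← h1]
  have : a = 1 - s := by linarith
  rw [this]
  push_cast
  ring

theorem no_slow {ℓ : ℕ} {p v : ℕ → Fin 2 → ℤ} (h : IsFeasible (n := 3) cities ℓ p v)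
    (hs : ∀ i ≤ ℓ, ∀ k, |v i k| ≤ 2) : 13 ≤ ℓ := by
  obtain ⟨idx, hmono, hle, hvis⟩ := h.visits
  set i1 := idx 1 with hi1
  set i2 := idx 2 with hi2
  have hle1 : i1 ≤ ℓ := hle 1
  have hle2 : i2 ≤ ℓ := hle 2
  have h12 : i1 ≤ i2 := hmono (by decide)
  obtain ⟨s, hs0, hs1, hsx⟩ := visits_param (hvis 1)
  obtain ⟨t, ht0, ht1, htx⟩ := visits_param (hvis 2)
  have hp0 : p 0 0 = 0 := by rw [h.start_pos]; rfl
  have hpl : p ℓ 0 = 0 := by rw [h.end_pos]; rfl
  have hv0 : v 0 = 0 := h.start_vel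
  have hvl : v ℓ = 0 := h.end_vel
  have hX : ∀ k, ∀ i < ℓ, v (i + 1) k = p (i + 1) k - p i k := by
    intro k i hi
    rw [(h.traj i hi).1]
    rfl
  have hup : ∀ k, ∀ i ≤ ℓ, v i k ≤ 2 := fun k i hi => (abs_le.mp (hs i hi k)).2
  have hlo : ∀ k, ∀ i ≤ ℓ, -2 ≤ v i k := fun k i hi => (abs_le.mp (hs i hi k)).1
  have c10 : ((cities 1 0 : ℤ) : ℝ) = 7 := by
    rw [show cities 1 0 = 7 by decide]
    norm_num
  have c11 : ((cities 1 1 : ℤ) : ℝ) = 0 := by
    rw [show cities 1 1 = 0 by decide]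
    norm_num
  have c20 : ((cities 2 0 : ℤ) : ℝ) = 7 := by
    rw [show cities 2 0 = 7 by decide]
    norm_num
  have c21 : ((cities 2 1 : ℤ) : ℝ) = 7 := by
    rw [show cities 2 1 = 7 by decide]
    norm_num
  have hsx0 := hsx 0
  have hsx1 := hsx 1
  have htx0 := htx 0
  have htx1 := htx 1
  rw [c10] at hsx0
  rw [c11] at hsx1
  rw [c20] at htx0
  rw [c21] at htx1
  rw [← hi1] at hsx0 hsx1
  rw [← hi2] at htx0 htx1
  -- `i1 ≥ 1`
  have hi1pos : 1 ≤ i1 := by
    by_contra hlt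
    have h0 : i1 = 0 := by omega
    rw [h0, hv0, hp0] at hsx0
    norm_num at hsx0
  have hl1 : 0 < ℓ := by omega
  have hv1 : v 1 0 ≤ 1 := by
    have := (h.traj 0 hl1).2 0
    rw [hv0] at this
    simp only [zero_add, Pi.zero_apply, sub_zero] at this
    exact (abs_le.mp this).2
  have hA := start_bound (X := fun i => p i 0) (V := fun i => v i 0) (hX 0) (hup 0) hp0
    (fun _ => hv1)
  -- `t1 ≥ 4`
  have hprev1 : p i1 0 - v i1 0 = p (i1 - 1) 0 := by
    have := hX 0 (i1 - 1) (by omega)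
    rw [show i1 - 1 + 1 = i1 by omega] at this
    omega
  have hprev1y : p i1 1 - v i1 1 = p (i1 - 1) 1 := by
    have := hX 1 (i1 - 1) (by omega)
    rw [show i1 - 1 + 1 = i1 by omega] at this
    omega
  have hprev2 : p i2 0 - v i2 0 = p (i2 - 1) 0 := by
    have := hX 0 (i2 - 1) (by omega)
    rw [show i2 - 1 + 1 = i2 by omega] at this
    omega
  have hprev2y : p i2 1 - v i2 1 = p (i2 - 1) 1 := by
    have := hX 1 (i2 - 1) (by omega)
    rw [show i2 - 1 + 1 = i2 by omega] at this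
    omega
  have hT1 : (4 : ℝ) ≤ i1 - 1 + s := by
    have hb1 : (p i1 0 : ℝ) ≤ 2 * i1 - 1 := by exact_mod_cast hA i1 hi1pos hle1
    have hb0 : ((p i1 0 - v i1 0 : ℤ) : ℝ) ≤ 2 * i1 - 3 := by
      rw [hprev1]
      rcases Nat.lt_or_ge 1 i1 with h1 | h1
      · have h2 : p (i1 - 1) 0 ≤ 2 * ((i1 - 1 : ℕ) : ℤ) - 1 := hA (i1 - 1) (by omega) (by omega)
        have h3 : ((i1 - 1 : ℕ) : ℤ) = (i1 : ℤ) - 1 := by omega
        rw [h3] at h2
        have h4 : p (i1 - 1) 0 ≤ 2 * (i1 : ℤ) - 3 := by omega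
        exact_mod_cast h4
      · exfalso
        have h2 : i1 = 1 := by omega
        have h3 : (p i1 0 : ℝ) ≤ 1 := by
          refine hb1.trans ?_
          rw [h2]
          norm_num
        have h4 : ((p i1 0 - v i1 0 : ℤ) : ℝ) = 0 := by
          rw [hprev1, h2]
          simp [hp0]
        push_cast at h4
        rw [h4] at hsx0
        nlinarith
    push_cast at hb0
    nlinarith
  -- `t2 - t1 ≥ 7/2`
  have hlt : i1 < i2 := by
    rcases h12.lt_or_eq with h1 | h1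
    · exact h1
    · exfalso
      rw [← h1] at htx1
      have h2 : (7 : ℝ) = (t - s) * (v i1 1 : ℝ) := by linear_combination htx1 - hsx1
      have h3 : |(v i1 1 : ℝ)| ≤ 2 := by exact_mod_cast hs i1 hle1 1
      have h4 : |t - s| ≤ 1 := abs_le.mpr ⟨by linarith, by linarith⟩
      have h5 : |(t - s) * (v i1 1 : ℝ)| ≤ 1 * 2 := by
        rw [abs_mul]
        exact mul_le_mul h4 h3 (abs_nonneg _) (by norm_num)
      rw [← h2] at h5
      norm_num at h5
  have hT2 : (7 / 2 : ℝ) ≤ (i2 - 1 + t) - (i1 - 1 + s) := by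
    have h1 : p (i2 - 1) 1 - p i1 1 ≤ 2 * (((i2 - 1 : ℕ) : ℤ) - i1) :=
      mid_bound (X := fun i => p i 1) (V := fun i => v i 1) (hX 1) (hup 1) i1 (i2 - 1)
      (by omega) (by omega)
    have h2 : ((i2 - 1 : ℕ) : ℤ) = (i2 : ℤ) - 1 := by omega
    rw [h2] at h1
    have h3 : (p (i2 - 1) 1 : ℝ) - p i1 1 ≤ 2 * (i2 - 1 - i1) := by exact_mod_cast h1
    have h4 : (v i1 1 : ℝ) ≤ 2 := by exact_mod_cast hup 1 i1 hle1
    have h5 : (v i2 1 : ℝ) ≤ 2 := by exact_mod_cast hup 1 i2 hle2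
    have h6 : (p i2 1 : ℝ) - v i2 1 = p (i2 - 1) 1 := by exact_mod_cast hprev2y
    have h7 : (0 : ℝ) = p i1 1 - (1 - s) * v i1 1 := by linear_combination hsx1
    have h8 : (7 : ℝ) = p (i2 - 1) 1 + t * v i2 1 := by linear_combination htx1 + h6
    nlinarith [mul_le_mul_of_nonneg_left h4 (sub_nonneg.mpr hs1),
      mul_le_mul_of_nonneg_left h5 ht0]
  -- `ℓ - t2 ≥ 5`
  have hl2 : 2 ≤ ℓ := by omega
  have hvl1 : -1 ≤ v (ℓ - 1) 0 := by
    have := (h.traj (ℓ - 1) (by omega)).2 0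
    rw [show ℓ - 1 + 1 = ℓ by omega, hvl] at this
    simp only [Pi.zero_apply, zero_sub, abs_neg] at this
    exact (abs_le.mp this).1
  have hB := end_bound (X := fun i => p i 0) (V := fun i => v i 0) (hX 0) (hlo 0) hpl hl2
    (by simp [hvl]) hvl1
  have hT3 : (5 : ℝ) ≤ ℓ - (i2 - 1 + t) := by
    have e1 : p (ℓ - 1) 0 = 0 := by
      have := hX 0 (ℓ - 1) (by omega)
      rw [show ℓ - 1 + 1 = ℓ by omega, hvl, hpl] at this
      simpa using this.symm
    have hB' : ∀ j, 2 ≤ j → j ≤ ℓ → p (ℓ - j) 0 ≤ 2 * j - 3 := hB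
    have e2 : p (ℓ - 2) 0 ≤ 1 := by
      have := hB' 2 le_rfl hl2
      norm_num at this
      exact this
    have h6 : (p i2 0 : ℝ) - v i2 0 = p (i2 - 1) 0 := by exact_mod_cast hprev2
    rw [h6] at htx0
    have hcase : i2 + 2 ≤ ℓ := by
      by_contra hlt2
      push Not at hlt2
      have h1 : p (i2 - 1) 0 ≤ 1 ∧ p i2 0 ≤ 0 := by
        rcases Nat.lt_or_ge i2 ℓ with h7 | h7
        · have h8 : i2 = ℓ - 1 := by omega
          rw [h8, show ℓ - 1 - 1 = ℓ - 2 by omega]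
          exact ⟨e2, e1.le⟩
        · have h8 : i2 = ℓ := by omega
          rw [h8]
          exact ⟨by rw [e1]; norm_num, hpl.le⟩
      have h2 : (p (i2 - 1) 0 : ℝ) ≤ 1 := by exact_mod_cast h1.1
      have h3 : (p i2 0 : ℝ) ≤ 0 := by exact_mod_cast h1.2
      nlinarith [mul_le_mul_of_nonneg_left h2 (sub_nonneg.mpr ht1),
        mul_le_mul_of_nonneg_left h3 ht0]
    have h1 : p i2 0 ≤ 2 * ((ℓ : ℤ) - i2) - 3 := by
      have h2 := hB' (ℓ - i2) (by omega) (by omega)
      rw [show ℓ - (ℓ - i2) = i2 by omega] at h2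
      have h3 : ((ℓ - i2 : ℕ) : ℤ) = (ℓ : ℤ) - i2 := by omega
      rw [h3] at h2
      exact h2
    have h2 : p (i2 - 1) 0 ≤ 2 * ((ℓ : ℤ) - i2) - 1 := by
      have h2 := hB' (ℓ - i2 + 1) (by omega) (by omega)
      rw [show ℓ - (ℓ - i2 + 1) = i2 - 1 by omega] at h2
      have h3 : ((ℓ - i2 + 1 : ℕ) : ℤ) = (ℓ : ℤ) - i2 + 1 := by omega
      rw [h3] at h2
      omega
    have h1' : (p i2 0 : ℝ) ≤ 2 * ((ℓ : ℝ) - i2) - 3 := by exact_mod_cast h1
    have h2' : (p (i2 - 1) 0 : ℝ) ≤ 2 * ((ℓ : ℝ) - i2) - 1 := by exact_mod_cast h2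
    nlinarith [mul_le_mul_of_nonneg_left h2' (sub_nonneg.mpr ht1),
      mul_le_mul_of_nonneg_left h1' ht0]
  have hfin : (12 : ℝ) < ℓ := by linarith
  have : 12 < ℓ := by exact_mod_cast hfin
  omega

/-- **Disproof.** For the four cities `(0,0), (7,0), (7,7), (0,7)` there are optimal trajectories,
and each of them has at some step, in some dimension, a speed strictly greater than `√L`
(and even strictly greater than `√(L + 1)`). -/
theorem result : ∃ (d n : ℕ) (x : Fin (n + 1) → Fin d → ℤ),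
    (∃ ℓ p v, IsOptimal x ℓ p v) ∧
    ∀ ℓ p v, IsOptimal x ℓ p v →
      ∃ i ≤ ℓ, ∃ k, √((extent x : ℝ) + 1) < |(v i k : ℝ)| ∧ √(extent x : ℝ) < |(v i k : ℝ)| := by
  refine ⟨2, 3, cities, ?_, ?_⟩
  · classical
    have hex : ∃ ℓ, ∃ p v, IsFeasible (n := 3) cities ℓ p v := ⟨12, pos, vel, feasible⟩
    obtain ⟨p, v, hpv⟩ := Nat.find_spec hex
    exact ⟨Nat.find hex, p, v, hpv, fun ℓ' p' v' h' => Nat.find_min' hex ⟨p', v', h'⟩⟩
  · rintro ℓ p v ⟨hf, hopt⟩
    have hl : ℓ ≤ 12 := hopt 12 pos vel feasible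
    by_contra hcon
    push Not at hcon
    have hslow : ∀ i ≤ ℓ, ∀ k, |v i k| ≤ 2 := by
      intro i hi k
      by_contra hgt
      push Not at hgt
      have h1 : (3 : ℤ) ≤ |v i k| := hgt
      have h2 : (3 : ℝ) ≤ |(v i k : ℝ)| := by exact_mod_cast h1
      have h3 : √((extent (n := 3) cities : ℝ) + 1) < 3 := by
        rw [extent_cities, Real.sqrt_lt' (by norm_num)]
        norm_num
      have h4 : √(extent (n := 3) cities : ℝ) < 3 := by
        rw [extent_cities, Real.sqrt_lt' (by norm_num)]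
        norm_num
      have h5 := hcon i hi k (lt_of_lt_of_le h3 h2)
      linarith
    have := no_slow hf hslow
    omega

end Pool.Agent.Results.MP_98930f_lc.SpeedAboveSqrt
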